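import Pool.Agent.Helper25_RM.Coh

/-!
# Completeness of the density metric implies neither `COH` nor arithmetic induction

Over `RCA₀ + BΣ⁰₂`. The model is the one used for `DOM`: a cut of cofinality `ω` in an ultrapower of
the natural numbers, with the sets that are `Δ⁰₁` in one internal set `B`. Since `B` codes a universal
`Σ⁰₁` predicate relative to itself, there is a sequence of sets of the model such that every infinite
set of the model is split by one of them. The standard cut is arithmetically definable from `B`.
-/

set_option autoImplicit false

namespace Pool.Agent.Results.MP_d53a0a_lc.CompletenessNotCohInduction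

open Pool.Agent.Helper25_RM

/-- There is a model of `RCA₀ + BΣ⁰₂` in which the density metric is complete and both `COH` and
arithmetic induction fail. -/
theorem result : ∃ N : L2Model, IsRCA0 N ∧ BSigma2 N ∧ Completeness N ∧ ¬ COH N ∧
    ¬ ArithInduction N :=
  ⟨NN, nn_rca0, nn_bsigma2, nn_complete, nn_not_coh, nn_not_arithInduction⟩

end Pool.Agent.Results.MP_d53a0a_lc.CompletenessNotCohInduction
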