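import Pool.Agent.Helper25_RM.Complete

/-!
# Completeness of the density metric does not imply `DOM` over `RCA₀ + BΣ⁰₂`

The model is a cut of cofinality `ω` in an ultrapower of the natural numbers, with the sets that are
`Δ⁰₁` in one internal set `B`. `DOM` fails because every set of the model is computable from `B`.
Completeness holds because a cofinal sequence of order type `ω` is limit computable from `B`, and the
moduli of a Cauchy sequence along it are functions from `ω` to `ω`, hence coded by numbers of the
model.
-/

set_option autoImplicit false

namespace Pool.Agent.Results.MP_d53a0a_lc.CompletenessNotDom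

open Pool.Agent.Helper25_RM

/-- There is a model of `RCA₀ + BΣ⁰₂` in which the density metric is complete and `DOM` fails. -/
theorem result : ∃ N : L2Model, IsRCA0 N ∧ BSigma2 N ∧ Completeness N ∧ ¬ DOM N :=
  ⟨NN, nn_rca0, nn_bsigma2, nn_complete, nn_not_dom⟩

end Pool.Agent.Results.MP_d53a0a_lc.CompletenessNotDom
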